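import Pool.Agent.Q17.Rack.Main

/-!
# Isomorphic subrack lattices, non-isomorphic conjugation racks

There are two groups of order `605 = 11 ^ 2 * 5` whose subrack lattices are isomorphic and whose
conjugation racks are not isomorphic.  They are the groups of all maps
`x ↦ v + diag(3 ^ c, 3 ^ (i c)) x` of the plane over the field with `11` elements, for `i = 2` and
`i = 4` (note that `3` has order `5` modulo `11`).
-/

namespace Pool.Agent.Results.MP_f3891b_al

/-- A subset `S` of the group `K` is a subrack of the conjugation rack of `K` (operation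
`x ▷ y = x * y * x⁻¹`): it is closed under the operation.  The empty set is allowed. -/
def IsSubrack {K : Type} [Group K] (S : Set K) : Prop := ∀ x ∈ S, ∀ y ∈ S, x * y * x⁻¹ ∈ S

/-- The subrack lattice of the conjugation rack of `K`: the subracks, ordered by inclusion. -/
abbrev SubrackLattice (K : Type) [Group K] : Type := {S : Set K // IsSubrack S}

/-- The conjugation racks of `K` and `L` are isomorphic. -/
def ConjugationRacksIsomorphic (K L : Type) [Group K] [Group L] : Prop :=
  ∃ f : K ≃ L, ∀ x y, f (x * y * x⁻¹) = f x * f y * (f x)⁻¹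

/-- There are finite groups (of order `605`) with isomorphic subrack lattices and non-isomorphic
conjugation racks. -/
theorem SubrackLatticeNotRack.result :
    ∃ (K L : Type) (_ : Group K) (_ : Group L), Nat.card K = 605 ∧ Nat.card L = 605 ∧
      Nonempty (SubrackLattice K ≃o SubrackLattice L) ∧ ¬ ConjugationRacksIsomorphic K L := by
  refine ⟨Q17.Rack.G 4, Q17.Rack.G 2, inferInstance, inferInstance, Q17.Rack.card_G,
    Q17.Rack.card_G, ?_, ?_⟩
  · have h : ∀ S : Set (Q17.Rack.G 2), IsSubrack S ↔ IsSubrack (Q17.Rack.Phi '' S) :=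
      Q17.Rack.phi_subrack
    have h' : ∀ S : Set (Q17.Rack.G 4), IsSubrack S → IsSubrack (Q17.Rack.Phi.symm '' S) := by
      intro S hS
      rw [h, ← Set.image_comp]
      simpa using hS
    refine ⟨OrderIso.symm
      { toFun := fun S => ⟨Q17.Rack.Phi '' S.1, (h S.1).mp S.2⟩
        invFun := fun S => ⟨Q17.Rack.Phi.symm '' S.1, h' S.1 S.2⟩
        left_inv := ?_
        right_inv := ?_
        map_rel_iff' := ?_ }⟩
    · intro S
      apply Subtype.ext
      simp
    · intro S
      apply Subtype.ext
      simp
    · intro S T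
      change Q17.Rack.Phi '' S.1 ⊆ Q17.Rack.Phi '' T.1 ↔ S.1 ⊆ T.1
      exact Set.image_subset_image_iff Q17.Rack.Phi.injective
  · rintro ⟨f, hf⟩
    exact Q17.Rack.no_rack_iso f hf

end Pool.Agent.Results.MP_f3891b_al
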